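import Pool.Agent.W466.CD
import Pool.Agent.W466.CE

/-!
# MP_e573c6_ag: Zilber-Pink for almost all scalings of an arbitrary curve in `Y(1)^n`

The Shimura variety `Y(1)^n` is identified with `ℂ^n` by the elliptic modular function
`jj = j = E₄³ / Δ`. A special subvariety of `Y(1)^n` of dimension `r` is given by
`H294ZP.SpecialDatum n r`: `Z.locus` is the set of the points `x` with `x_i = j (τ_i)` (`τ_i` a
fixed CM point) for the constant coordinates, and `x_i = j (g_i z_k)` for the coordinates of class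
`k`, where `z_1, …, z_r` are free in the upper half plane and `g_i` is a fixed integral matrix of
positive determinant.

Let `C ⊆ P^N` be a complex projective curve, defined by forms `G k`, and let `f_i = A_i / B_i`,
`i = 1, …, n`, be quotients of forms of the same degree `d_i`. For a vector `c` of positive integers
consider the curve `C_c` parametrized by `(f_1 / c_1, …, f_n / c_n)`; more precisely
`X_c = {x | ∃ y ∈ C, ∀ i, c_i B_i (y) x_i = A_i (y)}`, a closed subset of `Y(1)^n` which contains
the image.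

Suppose that the divisors of the `f_i` are pairwise disjoint (`hdisj`) and that every `f_i` has a
zero (`hzero`); nothing else is assumed, `C` may be singular, reducible, of any genus, and defined
over `ℂ`. Then there is a number `D` such that for all `c` which are spread out above `D` (there are
four primes larger than `D` dividing all the `c_i`, and the exponents of the `c_i` at these primes
are independent modulo squares)

* `C_c` is contained in no proper special subvariety;
* no point of `X_c` lies on a special subvariety of codimension at least two: `atyp(C_c) = ∅`.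

Moreover, for given exponents `a l i`, independent modulo squares, this applies to almost all members
of the family `c_i = ∏_{l < 4} (k + l)^(a l i)`, `k = 1, 2, 3, …`: the number of exceptions `k ≤ H`
is at most a power of `log H`.
-/

namespace Pool.Agent.Results.MP_e573c6_ag.ScaledCurves

open H294ZP MvPolynomial

/-- `y` is a vector of homogeneous coordinates of a point of the projective algebraic set `C` defined
by the forms `G k`. -/
def OnC {N : ℕ} {κ : Type*} (G : κ → MvPolynomial (Fin (N + 1)) ℂ) (y : Fin (N + 1) → ℂ) : Prop :=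
  y ≠ 0 ∧ ∀ k, eval y (G k) = 0

/-- For every proper special subvariety of `Y(1)^n` there is a point `y` of `C` such that
`(A_i (y) / (c_i B_i (y)))_i` is defined and does not lie on it. -/
def InNoProperSpecial {N n : ℕ} {κ : Type*} (G : κ → MvPolynomial (Fin (N + 1)) ℂ)
    (A B : Fin n → MvPolynomial (Fin (N + 1)) ℂ) (c : Fin n → ℕ) : Prop :=
  ∀ r, r < n → ∀ Z : SpecialDatum n r, ∃ y, OnC G y ∧ (∀ i, eval y (B i) ≠ 0) ∧
    (fun i => eval y (A i) / ((c i : ℂ) * eval y (B i))) ∉ Z.locus

/-- No point `x` of a special subvariety of `Y(1)^n` of codimension at least two satisfies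
`c_i B_i (y) x_i = A_i (y)` for all `i`, for a point `y` of `C`. -/
def NoAtypicalPoint {N n : ℕ} {κ : Type*} (G : κ → MvPolynomial (Fin (N + 1)) ℂ)
    (A B : Fin n → MvPolynomial (Fin (N + 1)) ℂ) (c : Fin n → ℕ) : Prop :=
  ∀ r, r + 2 ≤ n → ∀ Z : SpecialDatum n r, ∀ x ∈ Z.locus,
    ¬ ∃ y, OnC G y ∧ ∀ i, (c i : ℂ) * eval y (B i) * x i = eval y (A i)

/-- `c` is spread out above `D`: at four primes `p l` larger than `D` all the `c i` have positive
exponents `e l i`, and `e l i * e l j * e l' i * e l' j` is not a square for `l ≠ l'`, `i ≠ j`. -/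
def Spread {n : ℕ} (D : ℕ) (c : Fin n → ℕ) : Prop :=
  ∃ p : Fin 4 → ℕ, (∀ l, (p l).Prime ∧ D < p l ∧ ∀ i, 0 < (c i).factorization (p l)) ∧
    ∀ l l', l ≠ l' → ∀ i j, i ≠ j →
      ¬ IsSquare ((c i).factorization (p l) * (c j).factorization (p l) *
        ((c i).factorization (p l') * (c j).factorization (p l')))

/-- Zilber-Pink with `atyp = ∅` for all sufficiently spread out scalings of a curve in `Y(1)^n`, in
particular for all but few members of natural one-parameter families. -/
theorem result {κ : Type*} (N n : ℕ) (hn : 2 ≤ n) (G : κ → MvPolynomial (Fin (N + 1)) ℂ)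
    (hG : ∀ k, ∃ e, (G k).IsHomogeneous e) (A B : Fin n → MvPolynomial (Fin (N + 1)) ℂ)
    (d : Fin n → ℕ) (hA : ∀ i, (A i).IsHomogeneous (d i)) (hB : ∀ i, (B i).IsHomogeneous (d i))
    (hdisj : ∀ i j, i ≠ j → ∀ y, OnC G y →
      eval y (A i) * eval y (B i) = 0 → eval y (A j) * eval y (B j) ≠ 0)
    (hzero : ∀ i, ∃ y, OnC G y ∧ eval y (A i) = 0 ∧ eval y (B i) ≠ 0) :
    ∃ D : ℕ,
      (∀ c : Fin n → ℕ, Spread D c → InNoProperSpecial G A B c ∧ NoAtypicalPoint G A B c) ∧
      ∀ a : Fin 4 → Fin n → ℕ, (∀ l i, 0 < a l i) →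
        (∀ l l', l ≠ l' → ∀ i j, i ≠ j → ¬ IsSquare (a l i * a l j * (a l' i * a l' j))) →
        ∀ H : ℕ, Set.ncard {k : ℕ | 1 ≤ k ∧ k ≤ H ∧
          ¬ (InNoProperSpecial G A B (fun i => ∏ l : Fin 4, (k + l) ^ a l i) ∧
            NoAtypicalPoint G A B (fun i => ∏ l : Fin 4, (k + l) ^ a l i))} ≤
          4 * (Nat.log 2 (H + 3) + 1) ^ (D + 4) := by
  obtain ⟨D, hD⟩ := Pool.Agent.W466.ZC.main hn G hG A B d hA hB
    (fun i j hij y hy0 hyG => hdisj i j hij y ⟨hy0, hyG⟩)
    (fun i => by
      obtain ⟨y, hy, h1, h2⟩ := hzero i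
      exact ⟨y, hy.1, hy.2, h1, h2⟩)
  have h1 : ∀ c : Fin n → ℕ, Spread D c →
      InNoProperSpecial G A B c ∧ NoAtypicalPoint G A B c := by
    intro c hc
    obtain ⟨h2, h3⟩ := hD c hc
    refine ⟨?_, ?_⟩
    · intro r hr Z
      obtain ⟨y, hy0, hyG, hyB, hyZ⟩ := h2 r hr Z
      exact ⟨y, ⟨hy0, hyG⟩, hyB, hyZ⟩
    · rintro r hr Z x hx ⟨y, hy, hxy⟩
      exact h3 r hr Z x hx y hy.1 hy.2 hxy
  refine ⟨D, h1, fun a ha0 ha H => ?_⟩
  refine (Set.ncard_le_ncard ?_ ?_).trans (Pool.Agent.W466.ZC.count D a ⟨ha0, ha⟩ H)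
  · rintro k ⟨hk1, hk2, hk3⟩
    exact ⟨hk1, hk2, fun hs => hk3 (h1 _ hs)⟩
  · exact (Set.finite_Icc 1 H).subset fun k hk => ⟨hk.1, hk.2.1⟩

end Pool.Agent.Results.MP_e573c6_ag.ScaledCurves
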